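import Pool.Agent.H67R3.Cond5

/-!
# Continuum many pairs of a condensed and a non-condensed group (helper452)

The construction of `Pool.Agent.H67R3.Cond4` and `Cond5` with a parameter `X`, a set of natural
numbers.
-/

set_option autoImplicit false

namespace Pool.Agent.H452.CND

open LaurentPolynomial Pool.Agent.H67R3.CondDefs
open Pool.Agent.H67R3.Cond hiding T0 T1 shift_T0 T0_recurrent T0_even zero_notMem_T0 T1_odd
  zero_notMem_T1 one_notMem_T0 two_mem_T1 six_mem_T1 one_mem_T1 T1_no_three T1_pair condensed_T0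
  qmap qmap_mk qmap_surj qmap_ker qmap_ker_card qmap_ker_central qi_main P_zero commutator_k rigid
  words_std rigid_marking not_condensed_T1

/-- admissible exponents: all even ones, and those odd ones which are coded by `X` -/
def ok (X : Set ℕ) (k : ℕ) : Prop := k % 2 = 0 ∨ ∃ i ∈ X, k = 2 * i + 1

/-- the sets of integers -/
def T0 (X : Set ℕ) : Set ℤ := {n | ∃ (k : ℕ) (m : ℤ), ok X k ∧ n = 2 ^ (2 * k + 1) * (2 * m + 1)}

variable {X : Set ℕ}


lemma shift_T0 (K : ℕ) (n : ℤ) (hn : |n| < 2 ^ (2 * K)) :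
    n + 2 ^ (2 * K) ∈ (T0 X) ↔ n ∈ (T0 X) := by
  constructor
  · rintro ⟨k, m, hok, h⟩
    by_cases hk : k < K
    · refine ⟨k, m - 2 ^ (2 * K - 2 * k - 2), hok, ?_⟩
      have e : (2 : ℤ) ^ (2 * K) = 2 ^ (2 * k + 1) * (2 * 2 ^ (2 * K - 2 * k - 2)) := by
        rw [← pow_succ', ← pow_add]; congr 1; omega
      rw [e] at h
      linear_combination h
    · exfalso
      obtain ⟨d, rfl⟩ : ∃ d, k = K + d := ⟨k - K, by omega⟩
      have e : (2 : ℤ) ^ (2 * (K + d) + 1) = 2 ^ (2 * K) * (2 * 2 ^ (2 * d)) := by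
        rw [← pow_succ', ← pow_add]; congr 1; omega
      have h2 : n = 2 ^ (2 * K) * (2 * (2 ^ (2 * d) * (2 * m + 1) - 1) + 1) := by
        rw [e] at h
        linear_combination h
      have := abs_two_pow_mul (2 * K) (2 ^ (2 * d) * (2 * m + 1) - 1)
      rw [← h2] at this
      omega
  · rintro ⟨k, m, hok, h⟩
    have h1 := abs_two_pow_mul (2 * k + 1) m
    rw [← h] at h1
    have h2 : (2 : ℤ) ^ (2 * k + 1) < 2 ^ (2 * K) := lt_of_le_of_lt h1 hn
    have hk : 2 * k + 1 < 2 * K := (pow_lt_pow_iff_right₀ (by norm_num)).1 h2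
    refine ⟨k, m + 2 ^ (2 * K - 2 * k - 2), hok, ?_⟩
    have e : (2 : ℤ) ^ (2 * K) = 2 ^ (2 * k + 1) * (2 * 2 ^ (2 * K - 2 * k - 2)) := by
      rw [← pow_succ', ← pow_add]; congr 1; omega
    rw [e, h]; ring

lemma T0_recurrent (R : ℤ) : ∃ u : ℤ, (∀ n, |n| ≤ R → (n + u ∈ (T0 X) ↔ n ∈ (T0 X))) ∧
    ∃ m, ¬ (m + u ∈ (T0 X) ↔ m ∈ (T0 X)) := by
  obtain ⟨K, hK, hK2⟩ : ∃ K : ℕ, R < 2 ^ (2 * K) ∧ K % 2 = 0 := by
    refine ⟨2 * R.toNat, ?_, by omega⟩
    have h1 : R ≤ R.toNat := Int.self_le_toNat R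
    have h2 : R.toNat < 2 ^ R.toNat := Nat.lt_two_pow_self
    have h3 : (2 : ℕ) ^ R.toNat ≤ 2 ^ (2 * (2 * R.toNat)) :=
      Nat.pow_le_pow_right (by norm_num) (by omega)
    have h4 : ((R.toNat : ℕ) : ℤ) < ((2 ^ (2 * (2 * R.toNat)) : ℕ) : ℤ) := by
      exact_mod_cast lt_of_lt_of_le h2 h3
    push_cast at h4
    linarith
  refine ⟨2 ^ (2 * K), ?_, 2 ^ (2 * K), ?_⟩
  · intro n hn
    exact shift_T0 K n (lt_of_le_of_lt hn hK)
  · intro h
    have h1 : (2 : ℤ) ^ (2 * K) + 2 ^ (2 * K) ∈ (T0 X) :=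
      ⟨K, 0, Or.inl hK2, by rw [pow_succ]; ring⟩
    obtain ⟨k, m, -, h2⟩ := h.1 h1
    have h3 : (2 : ℤ) ^ (2 * K) * (2 * 0 + 1) = 2 ^ (2 * k + 1) * (2 * m + 1) := by
      rw [← h2]; ring
    have := pow_uniq _ _ _ _ h3
    omega

lemma T0_even {n : ℤ} (h : n ∈ (T0 X)) : n % 2 = 0 := by
  obtain ⟨k, m, -, h⟩ := h
  rw [pow_succ] at h
  have : n = 2 * (2 ^ (2 * k) * (2 * m + 1)) := by rw [h]; ring
  omega

lemma zero_notMem_T0 : (0 : ℤ) ∉ (T0 X) := by
  rintro ⟨k, m, -, h⟩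
  have h1 : (2 * m + 1 : ℤ) ≠ 0 := by omega
  have h2 : (2 : ℤ) ^ (2 * k + 1) ≠ 0 := by positivity
  exact mul_ne_zero h2 h1 h.symm

variable (X) in
/-- one more integer -/
def T1 : Set ℤ := insert 1 (T0 X)

lemma T1_odd {n : ℤ} (h : n ∈ (T1 X)) (h2 : n % 2 = 1) : n = 1 := by
  rcases h with h | h
  · exact h
  · have := T0_even h; omega

lemma zero_notMem_T1 : (0 : ℤ) ∉ (T1 X) := by
  rintro (h | h)
  · omega
  · exact zero_notMem_T0 h

lemma one_notMem_T0 : (1 : ℤ) ∉ (T0 X) := by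
  intro h
  have := T0_even h
  omega

lemma two_mem_T1 : (2 : ℤ) ∈ (T1 X) := Or.inr ⟨0, 0, Or.inl rfl, by norm_num⟩
lemma six_mem_T1 : (6 : ℤ) ∈ (T1 X) := Or.inr ⟨0, 1, Or.inl rfl, by norm_num⟩
lemma one_mem_T1 : (1 : ℤ) ∈ (T1 X) := Or.inl rfl

lemma T1_no_three (D : ℤ) : ¬ (D + 1 ∈ (T1 X) ∧ D + 2 ∈ (T1 X) ∧ D + 3 ∈ (T1 X)) := by
  rintro ⟨h1, h2, h3⟩
  rcases Int.emod_two_eq_zero_or_one D with h | h
  · have e1 := T1_odd h1 (by omega)
    have e3 := T1_odd h3 (by omega)
    omega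
  · have e2 := T1_odd h2 (by omega)
    have : D + 1 = 0 := by omega
    rw [this] at h1
    exact zero_notMem_T1 h1

lemma T1_pair {n : ℤ} (h1 : n ∈ (T1 X)) (h2 : n + 1 ∈ (T1 X)) : n = 1 := by
  rcases Int.emod_two_eq_zero_or_one n with h | h
  · have e := T1_odd h2 (by omega)
    have : n = 0 := by omega
    rw [this] at h1
    exact absurd h1 zero_notMem_T1
  · exact T1_odd h1 h

theorem condensed_T0 : Condensed (A ⧸ V (T0 X)) := condensed_of_recurrent (T0 X) T0_recurrent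

/-! ### the quotient map -/

variable (X) in
/-- the quotient map -/
noncomputable def qmap : A ⧸ V (T0 X) →* A ⧸ V (T1 X) :=
  QuotientGroup.map (V (T0 X)) (V (T1 X)) (MonoidHom.id A) (by
    intro g hg
    obtain ⟨h1, h2, h3, h4⟩ := hg
    exact ⟨h1, h2, h3, fun n hn => Or.inr (h4 n hn)⟩)

lemma qmap_mk (g : A) : (qmap X) (QuotientGroup.mk g) = QuotientGroup.mk g := rfl

lemma qmap_surj : Function.Surjective (qmap X) := by
  intro y
  obtain ⟨g, rfl⟩ := QuotientGroup.mk_surjective y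
  exact ⟨QuotientGroup.mk g, rfl⟩

lemma qmap_ker : ((qmap X).ker : Set (A ⧸ V (T0 X))) = {1, QuotientGroup.mk (cen (T 1))} := by
  ext y
  obtain ⟨g, rfl⟩ := QuotientGroup.mk_surjective y
  rw [SetLike.mem_coe, MonoidHom.mem_ker, qmap_mk, QuotientGroup.eq_one_iff]
  simp only [Set.mem_insert_iff, Set.mem_singleton_iff]
  constructor
  · intro hg
    obtain ⟨h1, h2, h3, h4⟩ := hg
    have hcase : g.c.coeff 1 = 0 ∨ g.c.coeff 1 = 1 := by
      generalize g.c.coeff 1 = w
      revert w; decide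
    rcases hcase with h5 | h5
    · left
      rw [QuotientGroup.eq_one_iff]
      refine ⟨h1, h2, h3, ?_⟩
      intro n hn
      rcases h4 n hn with h | h
      · rw [h] at hn; exact absurd h5 hn
      · exact h
    · right
      symm
      rw [QuotientGroup.eq]
      have e : (cen (T 1))⁻¹ * g = cen (T 1 + g.c) := by
        rw [V_eq_cen (S := (T1 X)) ⟨h1, h2, h3, h4⟩]
        ext1 <;> simp [cen, L_neg]
      rw [e]
      refine ⟨rfl, rfl, rfl, ?_⟩
      intro n hn
      have hn' : (T 1 : L).coeff n + g.c.coeff n ≠ 0 := hn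
      rw [T_apply] at hn'
      by_cases hn1 : 1 = n
      · exfalso
        rw [if_pos hn1, ← hn1, h5] at hn'
        exact hn' (by decide)
      · rw [if_neg hn1, zero_add] at hn'
        rcases h4 n hn' with h | h
        · exact absurd h.symm hn1
        · exact h
  · rintro (h | h)
    · rw [QuotientGroup.eq_one_iff] at h
      obtain ⟨h1, h2, h3, h4⟩ := h
      exact ⟨h1, h2, h3, fun n hn => Or.inr (h4 n hn)⟩
    · have h' := h.symm
      rw [QuotientGroup.eq] at h'
      have h5 : (cen (T 1))⁻¹ * g ∈ V (T1 X) := by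
        obtain ⟨h1, h2, h3, h4⟩ := h'
        exact ⟨h1, h2, h3, fun n hn => Or.inr (h4 n hn)⟩
      have h6 : cen (T 1) ∈ V (T1 X) := cen_T_mem.2 one_mem_T1
      have := (V (T1 X)).mul_mem h6 h5
      rwa [mul_inv_cancel_left] at this

lemma qmap_ker_card : Nat.card (qmap X).ker = 2 := by
  have h : Nat.card (qmap X).ker = ((qmap X).ker : Set (A ⧸ V (T0 X))).ncard := rfl
  rw [h, qmap_ker, Set.ncard_pair]
  intro h1
  have h2 := h1.symm
  rw [QuotientGroup.eq_one_iff, cen_T_mem] at h2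
  exact one_notMem_T0 h2

lemma qmap_ker_central : (qmap X).ker ≤ Subgroup.center (A ⧸ V (T0 X)) := by
  intro y hy
  have hy' : y ∈ ((qmap X).ker : Set (A ⧸ V (T0 X))) := hy
  rw [qmap_ker] at hy'
  rcases hy' with h | h
  · rw [h]; exact Subgroup.one_mem _
  · rw [h, Subgroup.mem_center_iff]
    intro z
    obtain ⟨g, rfl⟩ := QuotientGroup.mk_surjective z
    show (QuotientGroup.mk (g * cen (T 1)) : A ⧸ V (T0 X)) = QuotientGroup.mk (cen (T 1) * g)
    rw [cen_comm]

lemma qi_main : QuasiIsometric (A ⧸ V (T0 X)) (A ⧸ V (T1 X)) :=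
  qi_of_finite_kernel (qmap X) qmap_surj (by rw [qmap_ker]; exact Set.toFinite _)

/-- no nonzero `P` has `(T j + T (-j)) * P` supported in `(T1 X)` for `j = 1, 2, 3` -/
lemma P_zero (P : L) (h : ∀ j : ℤ, j = 1 ∨ j = 2 ∨ j = 3 → ∀ n, (T j * P + T (-j) * P).coeff n ≠ 0 → n ∈ (T1 X)) :
    P = 0 := by
  by_contra hP
  obtain ⟨D, hD1, hD2⟩ := exists_max P hP
  have key : ∀ j : ℤ, j = 1 ∨ j = 2 ∨ j = 3 → D + j ∈ (T1 X) := by
    intro j hj
    apply h j hj
    have e : (T j * P + T (-j) * P).coeff (D + j) =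
      (T j * P).coeff (D + j) + (T (-j) * P).coeff (D + j) := rfl
    rw [e, coeff_T_mul, coeff_T_mul]
    have e1 : D + j - j = D := by ring
    have e2 : P.coeff (D + j - -j) = 0 := hD2 _ (by rcases hj with h | h | h <;> omega)
    rw [e1, e2, add_zero]
    exact hD1
  exact T1_no_three D ⟨key 1 (by simp), key 2 (by simp), key 3 (by simp)⟩

lemma commutator_k (x y : A) (h : x * y ∈ V (T1 X)) : x.k + y.k = 0 := h.2.2.1

theorem rigid (x y t : A) (hgen : Subgroup.closure ({x, y, t} : Set A) = ⊤)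
    (hx2 : x * x ∈ V (T1 X)) (hy2 : y * y ∈ V (T1 X))
    (hxx : ∀ j : ℤ, j = 1 ∨ j = 2 ∨ j = 3 → x * cj t x j * x⁻¹ * (cj t x j)⁻¹ ∈ V (T1 X))
    (hyy : ∀ j : ℤ, j = 1 ∨ j = 2 ∨ j = 3 → y * cj t y j * y⁻¹ * (cj t y j)⁻¹ ∈ V (T1 X))
    (hxy : ∀ j : ℤ, j = 1 ∨ j = 2 ∨ j = 6 → x * cj t y j * x⁻¹ * (cj t y j)⁻¹ ∈ V (T1 X)) :
    ∃ σ : A →* A, σ xg = x ∧ σ yg = y ∧ σ tg = t ∧ ∀ g, σ g ∈ V (T1 X) ↔ g ∈ V (T1 X) := by
  have hx : x.k = 0 := by have := commutator_k x x hx2; omega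
  have hy : y.k = 0 := by have := commutator_k y y hy2; omega
  have ht := tk_sq x y t hx hy hgen
  have ht' : t.k = 1 ∨ t.k = -1 := Int.isUnit_iff.1 (IsUnit.of_mul_eq_one _ ht)
  -- self-pairings vanish
  have self : ∀ z : A, z.k = 0 →
      (∀ j : ℤ, j = 1 ∨ j = 2 ∨ j = 3 → z * cj t z j * z⁻¹ * (cj t z j)⁻¹ ∈ V (T1 X)) →
      ph z.a z.b = 0 := by
    intro z hz hzz
    apply P_zero
    intro j hj n hn
    have h1 := hzz j hj
    rw [comm_cj t z z hz hz] at h1
    obtain ⟨-, -, -, h2⟩ := h1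
    apply h2 n
    show (T (j * t.k) * ph z.a z.b + T (-(j * t.k)) * ph z.a z.b).coeff n ≠ 0
    rcases ht' with h | h
    · rw [h, mul_one]; exact hn
    · rw [h, mul_neg_one, neg_neg, add_comm]; exact hn
  have hPx := self x hx hxx
  have hPy := self y hy hyy
  -- squares
  have sq : ∀ z : A, z.k = 0 → ph z.a z.b = 0 → z * z = 1 := by
    intro z hz hP
    ext1
    · simp only [A.mul_a, hz, T_zero, one_mul, L_add_self, A.one_a]
    · simp only [A.mul_b, hz, T_zero, one_mul, L_add_self, A.one_b]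
    · simp only [A.mul_c, hz, T_zero, one_mul, L_add_self, A.one_c, hP, add_zero]
    · simp [hz]
  have comm : ∀ z : A, z.k = 0 → ph z.a z.b = 0 → ∀ i, z * cj t z i = cj t z i * z := by
    intro z hz hP i
    have h1 := comm_cj t z z hz hz i
    rw [hP, mul_zero, mul_zero, add_zero, cen_zero] at h1
    have h2 : z * cj t z i = (z * cj t z i * z⁻¹ * (cj t z i)⁻¹) * (cj t z i * z) := by group
    rw [h1, one_mul] at h2
    exact h2
  -- monomials
  have mono : ∃ u τ : ℤ, (τ = 1 ∨ τ = -1) ∧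
      ∀ j, x * cj t y j * x⁻¹ * (cj t y j)⁻¹ = cen (T (u + τ * j)) := by
    have genb := fun I h1 h2 => span_top_b x y t hx hy ht hgen I h1 h2
    have gena := fun I h1 h2 => span_top_a x y t hx hy ht hgen I h1 h2
    have genb' : ∀ I : Ideal L, y.b ∈ I → x.b ∈ I → (1 : L) ∈ I := fun I h1 h2 => genb I h2 h1
    have gena' : ∀ I : Ideal L, y.a ∈ I → x.a ∈ I → (1 : L) ∈ I := fun I h1 h2 => gena I h2 h1
    have hne : ∀ n : ℤ, (T n : L) ≠ 0 := fun n => (isUnit_T n).ne_zero
    rcases ph_eq_zero hPx with hxa | hxb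
    · -- x.a = 0
      obtain ⟨p, hp⟩ := unit_of_span hxa gena
      have hyb : y.b = 0 := by
        rcases ph_eq_zero hPy with h | h
        · rw [h] at hp; exact absurd hp.symm (hne p)
        · exact h
      obtain ⟨q, hq⟩ := unit_of_span hyb genb'
      refine ⟨q - p, -t.k, ?_, ?_⟩
      · rcases ht' with h | h <;> rw [h] <;> simp
      · intro j
        rw [comm_cj t x y hx hy, hxa, hyb, hp, hq, ph_zero_left, mul_zero, zero_add, ph_TT, T_mul_T]
        congr 2
        ring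
    · obtain ⟨q, hq⟩ := unit_of_span hxb genb
      have hya : y.a = 0 := by
        rcases ph_eq_zero hPy with h | h
        · exact h
        · rw [h] at hq; exact absurd hq.symm (hne q)
      obtain ⟨p, hp⟩ := unit_of_span hya gena'
      refine ⟨q - p, t.k, ht', ?_⟩
      intro j
      rw [comm_cj t x y hx hy, hxb, hya, hp, hq, ph_zero_left, mul_zero, add_zero, ph_TT, T_mul_T]
      congr 2
      ring
  obtain ⟨u, τ, hτ, hu⟩ := mono
  have hzc : ∀ m (w : A), (x * cj t y m * x⁻¹ * (cj t y m)⁻¹) * w =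
      w * (x * cj t y m * x⁻¹ * (cj t y m)⁻¹) := by
    intro m w
    rw [hu, cen_comm]
  obtain ⟨σ, hσx, hσy, hσt⟩ := exists_sigma x y t (sq x hx hPx) (sq y hy hPy)
    (comm x hx hPx) (comm y hy hPy) (fun m => hzc m x) (fun m => hzc m y) (fun m => hzc m t)
  refine ⟨σ, hσx, hσy, hσt, ?_⟩
  -- the action on the centre
  have hstd : ∀ j : ℤ, xg * cj tg yg j * xg⁻¹ * (cj tg yg j)⁻¹ = cen (T j) := by
    intro j
    rw [comm_cj tg xg yg rfl rfl]
    have e1 : ph xg.a yg.b = 1 := by simp [ph, xg, yg]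
    have e2 : ph yg.a xg.b = 0 := by simp [ph, xg, yg]
    have e3 : tg.k = 1 := rfl
    rw [e1, e2, e3]; simp
  have hσcj : ∀ j, σ (cj tg yg j) = cj t y j := by
    intro j
    unfold cj
    rw [map_mul, map_mul, map_inv, map_zpow, hσy, hσt]
  have hσT : ∀ j, σ (cen (T j)) = cen (T (u + τ * j)) := by
    intro j
    rw [← hstd, ← hu j]
    simp only [map_mul, map_inv, hσcj, hσx]
  have hm : ∀ j : ℤ, j = 1 ∨ j = 2 ∨ j = 6 → u + τ * j ∈ (T1 X) := by
    intro j hj
    have := hxy j hj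
    rw [hu j, cen_T_mem] at this
    exact this
  have hut : u = 0 ∧ τ = 1 := by
    have m1 := hm 1 (by simp)
    have m2 := hm 2 (by simp)
    have m6 := hm 6 (by simp)
    rcases hτ with h | h
    · rw [h] at m1 m2
      have e : u + 1 * 2 = (u + 1 * 1) + 1 := by ring
      rw [e] at m2
      have := T1_pair m1 m2
      exact ⟨by omega, h⟩
    · rw [h] at m1 m2 m6
      have e : u + -1 * 1 = (u + -1 * 2) + 1 := by ring
      rw [e] at m1
      have h3 := T1_pair m2 m1
      have h4 : u + -1 * 6 = -3 := by omega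
      rw [h4] at m6
      have := T1_odd m6 (by norm_num)
      omega
  have hσc : ∀ c, σ (cen c) = cen c := by
    intro c
    refine L_ind (M := fun c => σ (cen c) = cen c) c ?_ ?_ ?_
    · rw [cen_zero, map_one]
    · intro n
      rw [hσT, hut.1, hut.2]
      congr 2
      ring
    · intro p q hp hq
      rw [← cen_mul, map_mul, hp, hq]
  -- the kernel of σ is trivial
  have hσk : ∀ g, (σ g).k = t.k * g.k := by
    intro g
    have hg : g ∈ Subgroup.closure ({xg, yg, tg} : Set A) := by rw [closure_gen]; trivial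
    induction hg using Subgroup.closure_induction with
    | mem g hg =>
      simp only [Set.mem_insert_iff, Set.mem_singleton_iff] at hg
      rcases hg with h | h | h
      · rw [h, hσx, hx]; simp [xg]
      · rw [h, hσy, hy]; simp [yg]
      · rw [h, hσt]; simp [tg]
    | one => simp
    | mul g h _ _ ihg ihh => rw [map_mul, A.mul_k, A.mul_k, ihg, ihh]; ring
    | inv g _ ih => rw [map_inv, A.inv_k, A.inv_k, ih]; ring
  have hker : ∀ g, σ g = 1 → g = 1 := by
    intro g hg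
    have hgk : g.k = 0 := by
      have := hσk g
      rw [hg, A.one_k] at this
      rcases mul_eq_zero.1 this.symm with h | h
      · rw [h] at ht; omega
      · exact h
    have hz : ∀ h : A, h.k = 0 → ph g.a h.b + ph h.a g.b = 0 := by
      intro h hh
      have h1 := comm0 g h hgk hh
      have h2 := congrArg σ h1
      rw [hσc] at h2
      simp only [map_mul, map_inv, hg, one_mul, inv_one, mul_one, mul_inv_cancel] at h2
      rw [← cen_zero] at h2
      exact (cen_inj h2).symm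
    have ha : g.a = 0 := by
      have := hz yg rfl
      have e1 : yg.b = 1 := rfl
      have e2 : yg.a = 0 := rfl
      rw [e1, e2, ph_zero_left, add_zero] at this
      rcases ph_eq_zero this with h | h
      · exact h
      · exact absurd h one_ne_zero
    have hb : g.b = 0 := by
      have := hz xg rfl
      have e1 : xg.b = 0 := rfl
      have e2 : xg.a = 1 := rfl
      rw [e1, e2, ph_zero_right, zero_add] at this
      rcases ph_eq_zero this with h | h
      · exact absurd h one_ne_zero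
      · exact h
    have hgc : g = cen g.c := by
      ext1 <;> simp [cen, ha, hb, hgk]
    rw [hgc, hσc] at hg
    rw [hgc]; exact hg
  intro g
  constructor
  · intro hg
    have h1 : σ g = cen (σ g).c := V_eq_cen hg
    have h2 : σ (g * (cen (σ g).c)⁻¹) = 1 := by
      rw [map_mul, map_inv, hσc, ← h1, mul_inv_cancel]
    have h3 := hker _ h2
    have h4 : g = cen (σ g).c := by
      have := mul_inv_eq_one.1 h3
      exact this
    rw [h4, ← h1]; exact hg
  · intro hg
    have h1 : g = cen g.c := V_eq_cen hg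
    have h2 : σ g = g := by
      rw [h1, hσc]
    rw [h2]; exact hg

lemma words_std : ∀ w ∈ words, psi w ∈ V (T1 X) := by
  have hx : xg.k = 0 := rfl
  have hy : yg.k = 0 := rfl
  have ht : tg.k = 1 := rfl
  have hxx : ∀ j, psi (cw 0 0 j) ∈ V (T1 X) := by
    intro j
    rw [map_cw, psi_0, psi_2, comm_cj tg xg xg rfl rfl]
    have e : xg.b = 0 := rfl
    rw [e, ph_zero_right, mul_zero, mul_zero, add_zero, cen_zero]
    exact (V (T1 X)).one_mem
  have hyy : ∀ j, psi (cw 1 1 j) ∈ V (T1 X) := by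
    intro j
    rw [map_cw, psi_1, psi_2, comm_cj tg yg yg rfl rfl]
    have e : yg.a = 0 := rfl
    rw [e, ph_zero_left, mul_zero, mul_zero, add_zero, cen_zero]
    exact (V (T1 X)).one_mem
  have hxy : ∀ j, psi (cw 0 1 j) = cen (T j) := by
    intro j
    rw [map_cw, psi_0, psi_1, psi_2, comm_cj tg xg yg rfl rfl]
    have e1 : ph xg.a yg.b = 1 := by simp [ph, xg, yg]
    have e2 : ph yg.a xg.b = 0 := by simp [ph, xg, yg]
    rw [e1, e2, ht]; simp
  have h0 : xg * xg = 1 := by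
    ext1 <;> simp [xg, L_add_self]
  have h1 : yg * yg = 1 := by
    ext1 <;> simp [yg, L_add_self]
  intro w hw
  simp only [words, Set.mem_insert_iff, Set.mem_singleton_iff] at hw
  rcases hw with h | h | h | h | h | h | h | h | h | h | h
  · rw [h, map_mul, psi_0, h0]; exact (V (T1 X)).one_mem
  · rw [h, map_mul, psi_1, h1]; exact (V (T1 X)).one_mem
  · rw [h]; exact hxx _
  · rw [h]; exact hxx _
  · rw [h]; exact hxx _
  · rw [h]; exact hyy _
  · rw [h]; exact hyy _
  · rw [h]; exact hyy _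
  · rw [h, hxy, cen_T_mem]; exact one_mem_T1
  · rw [h, hxy, cen_T_mem]; exact two_mem_T1
  · rw [h, hxy, cen_T_mem]; exact six_mem_T1

theorem rigid_marking (π' : FreeGroup (Fin 3) →* A ⧸ V (T1 X)) (hπ' : Function.Surjective π')
    (h : ∀ w ∈ words, π' w = 1) : ∀ w, π' w = 1 ↔ psi w ∈ V (T1 X) := by
  obtain ⟨ψ, hψ, hψπ⟩ := exists_lift (T1 X) π' hπ'
  have hw' : ∀ w ∈ words, ψ w ∈ V (T1 X) := by
    intro w hw
    have := h w hw
    rwa [hψπ, QuotientGroup.eq_one_iff] at this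
  obtain ⟨σ, h1, h2, h3, h4⟩ := rigid (ψ (FreeGroup.of 0)) (ψ (FreeGroup.of 1))
    (ψ (FreeGroup.of 2)) (closure_of_surj ψ hψ)
    (by rw [← map_mul]; exact hw' _ (by simp [words]))
    (by rw [← map_mul]; exact hw' _ (by simp [words]))
    (by
      intro j hj
      rw [← map_cw]
      rcases hj with h | h | h <;> rw [h] <;> exact hw' _ (by simp [words]))
    (by
      intro j hj
      rw [← map_cw]
      rcases hj with h | h | h <;> rw [h] <;> exact hw' _ (by simp [words]))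
    (by
      intro j hj
      rw [← map_cw]
      rcases hj with h | h | h <;> rw [h] <;> exact hw' _ (by simp [words]))
  have h5 : ψ = σ.comp psi := by
    apply FreeGroup.ext_hom
    intro i
    fin_cases i
    · show ψ (FreeGroup.of 0) = σ (psi (FreeGroup.of 0))
      rw [psi_0, h1]
    · show ψ (FreeGroup.of 1) = σ (psi (FreeGroup.of 1))
      rw [psi_1, h2]
    · show ψ (FreeGroup.of 2) = σ (psi (FreeGroup.of 2))
      rw [psi_2, h3]
  intro w
  rw [hψπ, QuotientGroup.eq_one_iff, h5]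
  show σ (psi w) ∈ V (T1 X) ↔ psi w ∈ V (T1 X)
  rw [h4]

theorem not_condensed_T1 : ¬ Condensed (A ⧸ V (T1 X)) := by
  rintro ⟨-, hC⟩
  let π : FreeGroup (Fin 3) →* A ⧸ V (T1 X) := (QuotientGroup.mk' (V (T1 X))).comp psi
  have hπ : Function.Surjective π := (QuotientGroup.mk'_surjective _).comp psi_surj
  have hstd : ∀ w, w ∈ π.ker ↔ psi w ∈ V (T1 X) := by
    intro w
    rw [MonoidHom.mem_ker]
    show (QuotientGroup.mk (psi w) : A ⧸ V (T1 X)) = 1 ↔ _
    rw [QuotientGroup.eq_one_iff]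
  let x : isoClass (A ⧸ V (T1 X)) := ⟨⟨3, ⟨π.ker, MonoidHom.normal_ker π⟩⟩, ⟨π, hπ, rfl⟩⟩
  apply hC x
  refine isolated_of x words words_finite ?_
  rintro N' ⟨π', hπ', hker'⟩ hW
  have key : ∀ (M : Subgroup (FreeGroup (Fin 3))) (π'' : FreeGroup (Fin 3) →* A ⧸ V (T1 X)),
      Function.Surjective π'' → π''.ker = M → (∀ w ∈ words, (w ∈ M ↔ w ∈ π.ker)) →
      M = π.ker := by
    intro M π'' hs hk hw
    have h1 := rigid_marking π'' hs (by
      intro w hww
      rw [← MonoidHom.mem_ker, hk, hw w hww, hstd]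
      exact words_std w hww)
    ext w
    rw [hstd, ← h1, ← hk, MonoidHom.mem_ker]
  apply Subtype.ext
  exact key N'.1 π' hπ' hker' hW


end Pool.Agent.H452.CND
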