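import Pool.Agent.H452.CND.Main

/-!
# Non-isomorphism and solubility (helper452)
-/

set_option autoImplicit false

namespace Pool.Agent.H452.CND

open LaurentPolynomial Pool.Agent.H67R3.CondDefs
open Pool.Agent.H67R3.Cond hiding T0 T1 shift_T0 T0_recurrent T0_even zero_notMem_T0 T1_odd
  zero_notMem_T1 one_notMem_T0 two_mem_T1 six_mem_T1 one_mem_T1 T1_no_three T1_pair condensed_T0
  qmap qmap_mk qmap_surj qmap_ker qmap_ker_card qmap_ker_central qi_main P_zero commutator_k rigid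
  words_std rigid_marking not_condensed_T1

open Cardinal

/-! ### the sets are different -/

lemma T0_spec (X : Set ℕ) (i : ℕ) : (2 : ℤ) ^ (2 * (2 * i + 1) + 1) ∈ T0 X ↔ i ∈ X := by
  constructor
  · rintro ⟨k, m, hok, h⟩
    have h1 : (2 : ℤ) ^ (2 * (2 * i + 1) + 1) * (2 * 0 + 1) = 2 ^ (2 * k + 1) * (2 * m + 1) := by
      rw [← h]; ring
    have h2 := pow_uniq _ _ _ _ h1
    rcases hok with h3 | ⟨j, hj, h3⟩
    · omega
    · have : i = j := by omega
      rw [this]; exact hj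
  · intro h
    exact ⟨2 * i + 1, 0, Or.inr ⟨i, h, rfl⟩, by ring⟩

lemma T1_spec (X : Set ℕ) (i : ℕ) : (2 : ℤ) ^ (2 * (2 * i + 1) + 1) ∈ T1 X ↔ i ∈ X := by
  rw [← T0_spec]
  constructor
  · rintro (h | h)
    · exfalso
      have h1 : (2 : ℤ) ^ (2 * (2 * i + 1) + 1) = 2 * 2 ^ (2 * (2 * i + 1)) := by
        rw [pow_succ]; ring
      omega
    · exact h
  · intro h
    exact Or.inr h

lemma V_T0_inj {X Y : Set ℕ} (h : V (T0 X) = V (T0 Y)) : X = Y := by
  ext i
  rw [← T0_spec X, ← T0_spec Y, ← cen_T_mem, ← cen_T_mem, h]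

lemma V_T1_inj {X Y : Set ℕ} (h : V (T1 X) = V (T1 Y)) : X = Y := by
  ext i
  rw [← T1_spec X, ← T1_spec Y, ← cen_T_mem, ← cen_T_mem, h]

/-! ### countability -/

instance : Countable A := psi_surj.countable

instance (S : Set ℤ) : Countable (A ⧸ V S) := (QuotientGroup.mk'_surjective (V S)).countable

lemma hom_determined {H : Type} [Group H] (f g : A →* H) (h0 : f xg = g xg) (h1 : f yg = g yg)
    (h2 : f tg = g tg) : f = g := by
  apply MonoidHom.eq_of_eqOn_dense closure_gen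
  intro z hz
  simp only [Set.mem_insert_iff, Set.mem_singleton_iff] at hz
  rcases hz with h | h | h <;> rw [h] <;> assumption

lemma countable_iso {W : Set ℕ → Set ℤ} (hW : ∀ X Y, V (W X) = V (W Y) → X = Y) {H : Type}
    [Group H] [Countable H] : {Y : Set ℕ | Nonempty ((A ⧸ V (W Y)) ≃* H)}.Countable := by
  classical
  rw [← Set.countable_coe_iff]
  let F : {Y : Set ℕ | Nonempty ((A ⧸ V (W Y)) ≃* H)} → H × H × H := fun Y =>
    let e : (A ⧸ V (W Y.1)) ≃* H := Y.2.some
    (e (QuotientGroup.mk xg), e (QuotientGroup.mk yg), e (QuotientGroup.mk tg))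
  refine Function.Injective.countable (f := F) ?_
  intro Y Z h
  apply Subtype.ext
  apply hW
  let e : (A ⧸ V (W Y.1)) ≃* H := Y.2.some
  let e' : (A ⧸ V (W Z.1)) ≃* H := Z.2.some
  have h0 : F Y = F Z := h
  have h1 : e.toMonoidHom.comp (QuotientGroup.mk' (V (W Y.1))) =
      e'.toMonoidHom.comp (QuotientGroup.mk' (V (W Z.1))) := by
    apply hom_determined
    · exact (Prod.ext_iff.1 h0).1
    · exact (Prod.ext_iff.1 (Prod.ext_iff.1 h0).2).1
    · exact (Prod.ext_iff.1 (Prod.ext_iff.1 h0).2).2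
  ext g
  have h2 : ∀ (Q : Set ℤ) (E : (A ⧸ V Q) ≃* H),
      g ∈ V Q ↔ E.toMonoidHom.comp (QuotientGroup.mk' (V Q)) g = 1 := by
    intro Q E
    change _ ↔ E (QuotientGroup.mk g) = 1
    rw [map_eq_one_iff E E.injective, QuotientGroup.eq_one_iff]
  rw [h2 _ e, h2 _ e', h1]

/-- a relation with countable classes on the subsets of `ℕ` has an independent set of size
continuum -/
theorem exists_indep (r : Set ℕ → Set ℕ → Prop) (hs : ∀ X Y, r X Y → r Y X)
    (hc : ∀ X, {Y | r X Y}.Countable) :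
    ∃ e : Set ℕ → Set ℕ, Function.Injective e ∧ ∀ X Y, X ≠ Y → ¬ r (e X) (e Y) := by
  obtain ⟨M, hM⟩ := zorn_subset {M : Set (Set ℕ) | ∀ X ∈ M, ∀ Y ∈ M, X ≠ Y → ¬ r X Y} (by
    intro c hc1 hc2
    refine ⟨⋃₀ c, ?_, fun s hs => Set.subset_sUnion_of_mem hs⟩
    rintro X ⟨s, hs, hXs⟩ Y ⟨t, ht, hYt⟩ hne
    rcases hc2.total hs ht with h | h
    · exact hc1 ht X (h hXs) Y hYt hne
    · exact hc1 hs X hXs Y (h hYt) hne)
  have hM1 : ∀ X ∈ M, ∀ Y ∈ M, X ≠ Y → ¬ r X Y := hM.prop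
  have hcov : (Set.univ : Set (Set ℕ)) ⊆ ⋃ Y ∈ M, ({Y} ∪ {X | r Y X}) := by
    intro X _
    by_contra hX
    simp only [Set.mem_iUnion, Set.mem_union, Set.mem_singleton_iff, Set.mem_setOf_eq,
      exists_prop, not_exists, not_and, not_or] at hX
    have hXM : X ∉ M := fun h => (hX X h).1 rfl
    have h1 : insert X M ∈ {M : Set (Set ℕ) | ∀ X ∈ M, ∀ Y ∈ M, X ≠ Y → ¬ r X Y} := by
      intro A hA B hB hne
      rcases hA with rfl | hA
      · rcases hB with rfl | hB
        · exact absurd rfl hne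
        · intro h
          exact (hX B hB).2 (hs _ _ h)
      · rcases hB with rfl | hB
        · intro h
          exact (hX A hA).2 h
        · exact hM1 A hA B hB hne
    exact hXM (hM.2 h1 (Set.subset_insert X M) (Set.mem_insert X M))
  have hcard : #(Set ℕ) ≤ #M := by
    have h1 : #(Set ℕ) ≤ #M * ℵ₀ := by
      calc #(Set ℕ) = #(Set.univ : Set (Set ℕ)) := mk_univ.symm
        _ ≤ #(⋃ Y ∈ M, ({Y} ∪ {X | r Y X}) : Set (Set ℕ)) := mk_le_mk_of_subset hcov
        _ = #(⋃ Y : M, ({Y.1} ∪ {X | r Y.1 X}) : Set (Set ℕ)) := by rw [Set.biUnion_eq_iUnion]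
        _ ≤ #M * ⨆ Y : M, #(({Y.1} ∪ {X | r Y.1 X} : Set (Set ℕ))) := mk_iUnion_le _
        _ ≤ #M * ℵ₀ := by
          gcongr
          apply ciSup_le'
          intro Y
          rw [le_aleph0_iff_set_countable]
          exact (Set.countable_singleton _).union (hc _)
    have h2 : #(Set ℕ) = continuum := by rw [mk_set, mk_nat, two_power_aleph0]
    have h3 : ℵ₀ < #M := by
      by_contra h
      have h4 : #M * ℵ₀ ≤ ℵ₀ := (mul_le_mul_left (not_lt.1 h) _).trans (by simp)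
      have h5 : #(Set ℕ) ≤ ℵ₀ := h1.trans h4
      rw [h2] at h5
      exact absurd h5 (not_le.2 aleph0_lt_continuum)
    rwa [mul_eq_left h3.le h3.le aleph0_ne_zero] at h1
  obtain ⟨f⟩ := (Cardinal.le_def _ _).1 hcard
  refine ⟨fun X => (f X).1, fun X Y h => f.injective (Subtype.ext h), fun X Y hne => ?_⟩
  exact hM1 _ (f X).2 _ (f Y).2 fun h => hne (f.injective (Subtype.ext h))

/-! ### derived length three -/

lemma derived_A : derivedSeries A 3 = ⊥ := by
  have h1 : derivedSeries A 1 ≤ kHom.ker := by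
    rw [derivedSeries_one, commutator_def, Subgroup.commutator_le]
    intro g _ h _
    rw [MonoidHom.mem_ker]
    rw [map_commutatorElement, commutatorElement_eq_one_iff_mul_comm, mul_comm]
  have h2 : derivedSeries A 2 ≤ Subgroup.center A := by
    rw [derivedSeries_succ, Subgroup.commutator_le]
    intro g hg h hh
    have hg1 : g.k = 0 := h1 hg
    have hh1 : h.k = 0 := h1 hh
    rw [commutatorElement_def, comm0 g h hg1 hh1, Subgroup.mem_center_iff]
    intro z
    exact (cen_comm _ z).symm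
  rw [eq_bot_iff, derivedSeries_succ, Subgroup.commutator_le]
  intro g hg h hh
  rw [Subgroup.mem_bot, commutatorElement_eq_one_iff_mul_comm]
  exact ((Subgroup.mem_center_iff.1 (h2 hg)) h).symm

lemma derived_quot (S : Set ℤ) : derivedSeries (A ⧸ V S) 3 = ⊥ := by
  rw [← map_derivedSeries_eq (QuotientGroup.mk'_surjective (V S)) 3, derived_A, Subgroup.map_bot]

/-- continuum many pairs -/
theorem many : ∃ (G H : Set ℕ → Type) (_ : ∀ X, Group (G X)) (_ : ∀ X, Group (H X)),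
    (∀ X, Group.FG (G X) ∧ Group.FG (H X) ∧ QuasiIsometric (G X) (H X) ∧
      (∃ φ : G X →* H X, Function.Surjective φ ∧ Nat.card φ.ker = 2 ∧
        φ.ker ≤ Subgroup.center (G X)) ∧
      Condensed (G X) ∧ ¬ Condensed (H X) ∧
      derivedSeries (G X) 3 = ⊥ ∧ derivedSeries (H X) 3 = ⊥) ∧
    ∀ X Y, X ≠ Y → IsEmpty (G X ≃* G Y) ∧ IsEmpty (H X ≃* H Y) := by
  have hfg := fg_A
  obtain ⟨e, -, he⟩ := exists_indep
    (fun X Y => Nonempty ((A ⧸ V (T0 Y)) ≃* (A ⧸ V (T0 X))) ∨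
      Nonempty ((A ⧸ V (T1 Y)) ≃* (A ⧸ V (T1 X))))
    (by
      intro X Y h
      rcases h with h | h
      · exact Or.inl (h.map MulEquiv.symm)
      · exact Or.inr (h.map MulEquiv.symm))
    (fun X => (countable_iso (W := T0) (fun _ _ => V_T0_inj)).union
      (countable_iso (W := T1) (fun _ _ => V_T1_inj)))
  refine ⟨fun X => A ⧸ V (T0 (e X)), fun X => A ⧸ V (T1 (e X)), fun _ => inferInstance,
    fun _ => inferInstance, fun X => ⟨QuotientGroup.fg _, QuotientGroup.fg _, qi_main,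
      ⟨qmap (e X), qmap_surj, qmap_ker_card, qmap_ker_central⟩, condensed_T0, not_condensed_T1,
      derived_quot _, derived_quot _⟩, fun X Y hne => ⟨⟨fun h => ?_⟩, ⟨fun h => ?_⟩⟩⟩
  · exact he X Y hne (Or.inl ⟨h.symm⟩)
  · exact he X Y hne (Or.inr ⟨h.symm⟩)

end Pool.Agent.H452.CND
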